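import Pool.Agent.Helper63.P705.NR.Goals

/-!
# MP_705522_gt, packet NR-GLo: `∫_0^2.4 x² exp(-x²/2) ≥ 1.09`
-/

namespace Pool.Agent.Helper2.NR

open MeasureTheory Set Filter Topology

theorem int_gauss : Integrable (fun x : ℝ ↦ Real.exp (-(x ^ 2) / 2)) := by
  have h := integrable_exp_neg_mul_sq (b := (1 / 2 : ℝ)) (by norm_num)
  refine h.congr (Eventually.of_forall fun x ↦ ?_)
  show Real.exp (-(1 / 2) * x ^ 2) = _
  congr 1
  ring

theorem half_line : ∫ x in Ioi (0 : ℝ), Real.exp (-(x ^ 2) / 2) = √(2 * Real.pi) / 2 := by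
  have h := integral_gaussian_Ioi (1 / 2 : ℝ)
  have e : Real.pi / (1 / 2) = 2 * Real.pi := by ring
  rw [e] at h
  rw [← h]
  refine setIntegral_congr_fun measurableSet_Ioi fun x _ ↦ ?_
  show Real.exp (-(x ^ 2) / 2) = Real.exp (-(1 / 2) * x ^ 2)
  congr 1
  ring

theorem tendsto_gauss : Tendsto (fun x : ℝ ↦ -Real.exp (-(x ^ 2) / 2)) atTop (𝓝 0) := by
  have h1 : Tendsto (fun x : ℝ ↦ x ^ 2 / 2) atTop atTop :=
    (tendsto_pow_atTop (by norm_num)).atTop_div_const (by norm_num)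
  have h2 : Tendsto (fun x : ℝ ↦ Real.exp (-(x ^ 2 / 2))) atTop (𝓝 0) :=
    Real.tendsto_exp_neg_atTop_nhds_zero.comp h1
  have h3 := h2.neg
  rw [neg_zero] at h3
  refine h3.congr fun x ↦ ?_
  rw [neg_div]

theorem hd1 (x : ℝ) : HasDerivAt (fun x : ℝ ↦ -(x ^ 2) / 2) (-x) x := by
  refine (((hasDerivAt_pow 2 x).fun_neg).div_const 2).congr_deriv ?_
  push_cast
  ring

theorem hasDeriv_gauss (x : ℝ) :
    HasDerivAt (fun x : ℝ ↦ -Real.exp (-(x ^ 2) / 2)) (x * Real.exp (-(x ^ 2) / 2)) x := by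
  refine ((hd1 x).exp.fun_neg).congr_deriv ?_
  ring

theorem int_x_gauss : IntegrableOn (fun x : ℝ ↦ x * Real.exp (-(x ^ 2) / 2)) (Ioi 2.4) := by
  refine integrableOn_Ioi_deriv_of_nonneg' (fun x _ ↦ hasDeriv_gauss x) (fun x hx ↦ ?_)
    tendsto_gauss
  have : (0 : ℝ) < x := lt_trans (by norm_num) hx
  positivity

theorem tail_x : ∫ x in Ioi (2.4 : ℝ), x * Real.exp (-(x ^ 2) / 2) =
    Real.exp (-(2.4 ^ 2 : ℝ) / 2) := by
  have h := integral_Ioi_of_hasDerivAt_of_tendsto' (fun x _ ↦ hasDeriv_gauss x) int_x_gauss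
    tendsto_gauss
  rw [h]
  ring

theorem tail_le : ∫ x in Ioi (2.4 : ℝ), Real.exp (-(x ^ 2) / 2) ≤
    Real.exp (-(2.4 ^ 2 : ℝ) / 2) / 2.4 := by
  rw [← tail_x, div_eq_mul_inv, mul_comm, ← integral_const_mul]
  refine setIntegral_mono_on int_gauss.integrableOn (int_x_gauss.const_mul _) measurableSet_Ioi
    fun x hx ↦ ?_
  have h1 : (2.4 : ℝ) < x := hx
  have h2 : (1 : ℝ) ≤ (2.4 : ℝ)⁻¹ * x := by
    rw [← div_eq_inv_mul, le_div_iff₀ (by norm_num)]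
    linarith
  have h3 := Real.exp_pos (-(x ^ 2) / 2)
  calc Real.exp (-(x ^ 2) / 2) = 1 * Real.exp (-(x ^ 2) / 2) := (one_mul _).symm
    _ ≤ ((2.4 : ℝ)⁻¹ * x) * Real.exp (-(x ^ 2) / 2) := by
        exact mul_le_mul_of_nonneg_right h2 h3.le
    _ = (2.4 : ℝ)⁻¹ * (x * Real.exp (-(x ^ 2) / 2)) := by ring

theorem split : ∫ x in (0 : ℝ)..2.4, Real.exp (-(x ^ 2) / 2) =
    √(2 * Real.pi) / 2 - ∫ x in Ioi (2.4 : ℝ), Real.exp (-(x ^ 2) / 2) := by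
  rw [← half_line]
  have h := intervalIntegral.integral_interval_add_Ioi (a := (0 : ℝ)) (b := 2.4)
    (f := fun x : ℝ ↦ Real.exp (-(x ^ 2) / 2)) (μ := volume) int_gauss.integrableOn
    int_gauss.integrableOn
  linarith

theorem parts : ∫ x in (0 : ℝ)..2.4, x ^ 2 * Real.exp (-(x ^ 2) / 2) =
    (∫ x in (0 : ℝ)..2.4, Real.exp (-(x ^ 2) / 2)) - 2.4 * Real.exp (-(2.4 ^ 2 : ℝ) / 2) := by
  have hd : ∀ x ∈ uIcc (0 : ℝ) 2.4, HasDerivAt (fun x : ℝ ↦ x * Real.exp (-(x ^ 2) / 2))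
      (Real.exp (-(x ^ 2) / 2) - x ^ 2 * Real.exp (-(x ^ 2) / 2)) x := by
    intro x _
    refine ((hasDerivAt_id' x).fun_mul (hd1 x).exp).congr_deriv ?_
    ring
  have hc1 : Continuous fun x : ℝ ↦ Real.exp (-(x ^ 2) / 2) := by fun_prop
  have hc2 : Continuous fun x : ℝ ↦ x ^ 2 * Real.exp (-(x ^ 2) / 2) := by fun_prop
  have h := intervalIntegral.integral_eq_sub_of_hasDerivAt hd
    ((hc1.sub hc2).intervalIntegrable _ _)
  rw [intervalIntegral.integral_sub (hc1.intervalIntegrable _ _) (hc2.intervalIntegrable _ _)] at h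
  simp only [zero_mul, sub_zero] at h
  linarith

theorem exp_bound : Real.exp (-(2.4 ^ 2 : ℝ) / 2) ≤ 1 / 17.6 := by
  have e : (-(2.4 ^ 2 : ℝ) / 2) = -2.88 := by norm_num
  rw [e, Real.exp_neg, ← one_div]
  apply one_div_le_one_div_of_le (by norm_num)
  have h1 : Real.exp 2.88 = Real.exp 1 ^ 3 * Real.exp (-0.12) := by
    rw [← Real.exp_nat_mul, ← Real.exp_add]
    norm_num
  have h2 : (0.88 : ℝ) ≤ Real.exp (-0.12) := by
    have := Real.add_one_le_exp (-0.12 : ℝ)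
    linarith
  have h3 : (2.718 : ℝ) < Real.exp 1 := lt_trans (by norm_num) Real.exp_one_gt_d9
  have h4 : (2.718 : ℝ) ^ 3 ≤ Real.exp 1 ^ 3 := pow_le_pow_left₀ (by norm_num) h3.le 3
  rw [h1]
  calc (17.6 : ℝ) ≤ 2.718 ^ 3 * 0.88 := by norm_num
    _ ≤ Real.exp 1 ^ 3 * Real.exp (-0.12) :=
        mul_le_mul h4 h2 (by norm_num) (by positivity)

theorem gLo : Pool.Agent.Helper63.P705.NR.GLo := by
  unfold Pool.Agent.Helper63.P705.NR.GLo
  rw [parts, split]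
  have h1 := tail_le
  have h2 := exp_bound
  have h3 : (2.506 : ℝ) ≤ √(2 * Real.pi) := by
    apply Real.le_sqrt_of_sq_le
    have := Real.pi_gt_d6
    norm_num at this ⊢
    linarith
  have h4 : Real.exp (-(2.4 ^ 2 : ℝ) / 2) / 2.4 ≤ (1 / 17.6) / 2.4 := by
    gcongr
  norm_num at h1 h2 h3 h4 ⊢
  linarith

end Pool.Agent.Helper2.NR
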